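import Pool.Agent.LSG.StmtsE
import Pool.Agent.Helper72_LSG.CVR

/-! Squad LSG (MP_005a41_gt), row CVK: copy of row CVR (helper72) with an arbitrary dense index set. -/

set_option autoImplicit false

open MeasureTheory Set Topology
open scoped BigOperators Pointwise

namespace Pool.Agent.LSG.H69

open Pool.Agent.LSG.H72

theorem cvk : CvkStmt := by
  intro H _ _ _ _ V D hV hD
  letI : MetricSpace H := TopologicalSpace.metrizableSpaceMetric H
  let h : D → H := fun n => n.1
  have hd : DenseRange h := hD.denseRange_val
  let U : D → Set H := fun n => {x | (h n)⁻¹ * x ∈ interior V}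
  have hUo : ∀ n, IsOpen (U n) := fun n =>
    isOpen_interior.preimage (continuous_const.mul continuous_id)
  have hcov : (univ : Set H) ⊆ ⋃ n, U n := by
    intro x _
    have hO : IsOpen {y : H | y⁻¹ * x ∈ interior V} :=
      isOpen_interior.preimage (continuous_inv.mul continuous_const)
    have hne : {y : H | y⁻¹ * x ∈ interior V}.Nonempty := by
      refine ⟨x, ?_⟩
      show x⁻¹ * x ∈ interior V
      rw [inv_mul_cancel]
      exact mem_interior_iff_mem_nhds.2 hV
    obtain ⟨n, hn⟩ := hd.exists_mem_open hO hne
    exact mem_iUnion.2 ⟨n, hn⟩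
  obtain ⟨ρ, hρ⟩ := PartitionOfUnity.exists_isSubordinate isClosed_univ U hUo hcov
  have hfin : ∀ x, {n | ρ n x ≠ 0}.Finite := by
    intro x
    exact ρ.locallyFinite.point_finite x
  have hsupp : ∀ n x, ρ n x ≠ 0 → (h n)⁻¹ * x ∈ interior V := by
    intro n x hx
    exact hρ n (subset_tsupport _ hx)
  -- the two maps
  let i : ↥(Cp H) →L[ℝ] (D → ↥(Cp V)) :=
    { toFun := fun f n => ⟨fun v : V => f.1 (h n * v.1), by
        have hf : Continuous f.1 := f.2
        exact hf.comp (continuous_const.mul continuous_subtype_val)⟩
      map_add' := fun f g => rfl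
      map_smul' := fun c f => rfl
      cont := by
        refine continuous_pi fun n => Continuous.subtype_mk (continuous_pi fun v => ?_) _
        exact (continuous_apply (h n * v.1)).comp continuous_subtype_val }
  let p : (D → ↥(Cp V)) →L[ℝ] ↥(Cp H) :=
    { toFun := fun F => ⟨fun x => ∑ n ∈ (hfin x).toFinset, ρ n x * ev (h n) (F n) x, by
        show Continuous _
        have h1 : (fun x => ∑ n ∈ (hfin x).toFinset, ρ n x * ev (h n) (F n) x) =
            fun x => ∑ᶠ n, ρ n x • ev (h n) (F n) x := by
          funext x
          rw [finsum_eq_sum_of_support_subset (s := (hfin x).toFinset)]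
          · rfl
          · intro n hn
            rw [Function.mem_support] at hn
            simp only [Set.Finite.coe_toFinset, Set.mem_setOf_eq]
            intro h0
            apply hn
            rw [h0, zero_smul]
        rw [h1]
        apply ρ.continuous_finsum_smul
        intro n x hx
        exact ev_contAt (h n) (F n) x (hρ n hx)⟩
      map_add' := by
        intro F G
        apply Subtype.ext
        funext x
        show ∑ n ∈ (hfin x).toFinset, ρ n x * ev (h n) (F n + G n) x =
          ∑ n ∈ (hfin x).toFinset, ρ n x * ev (h n) (F n) x +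
          ∑ n ∈ (hfin x).toFinset, ρ n x * ev (h n) (G n) x
        rw [← Finset.sum_add_distrib]
        apply Finset.sum_congr rfl
        intro n _
        rw [ev_add, mul_add]
      map_smul' := by
        intro c F
        apply Subtype.ext
        funext x
        show ∑ n ∈ (hfin x).toFinset, ρ n x * ev (h n) (c • F n) x =
          c * ∑ n ∈ (hfin x).toFinset, ρ n x * ev (h n) (F n) x
        rw [Finset.mul_sum]
        apply Finset.sum_congr rfl
        intro n _
        rw [ev_smul]
        ring
      cont := by
        refine Continuous.subtype_mk (continuous_pi fun x => ?_) _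
        refine continuous_finsetSum _ fun n _ => ?_
        exact continuous_const.mul ((ev_cont (h n) x).comp (continuous_apply n)) }
  refine ⟨i, p, ?_⟩
  intro f
  apply Subtype.ext
  funext x
  show ∑ n ∈ (hfin x).toFinset, ρ n x * ev (h n) (i f n) x = f.1 x
  have h2 : ∀ n ∈ (hfin x).toFinset, ρ n x * ev (h n) (i f n) x = ρ n x * f.1 x := by
    intro n hn
    rw [Set.Finite.mem_toFinset] at hn
    have hx : (h n)⁻¹ * x ∈ V := interior_subset (hsupp n x hn)
    congr 1
    unfold ev
    rw [dif_pos hx]
    show f.1 (h n * ((h n)⁻¹ * x)) = f.1 x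
    rw [mul_inv_cancel_left]
  rw [Finset.sum_congr rfl h2, ← Finset.sum_mul]
  have h3 : ∑ n ∈ (hfin x).toFinset, ρ n x = 1 := by
    rw [← ρ.sum_eq_one (mem_univ x), finsum_eq_sum_of_support_subset (s := (hfin x).toFinset)]
    intro n hn
    simpa using hn
  rw [h3, one_mul]

end Pool.Agent.LSG.H69
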